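import Pool.Agent.W627.LT.Stm
import Pool.Agent.H343R2.EH.Defs

set_option autoImplicit false

/-! # Primes with negative value of the Kronecker symbol -/

namespace Pool.Agent.W479.LT

open Finset

/-- the values of a real character -/
theorem vals {D : ℕ} [NeZero D] (χ : DirichletCharacter ℂ D) (x : ZMod D) (m : ℤ)
    (h : χ x = (m : ℂ)) : (IsUnit x → m = 1 ∨ m = -1) ∧ (¬ IsUnit x → m = 0) := by
  constructor
  · intro hu
    obtain ⟨u, rfl⟩ := hu
    have h1 := DirichletCharacter.unit_norm_eq_one χ u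
    rw [h] at h1
    have h2 : |(m : ℝ)| = 1 := by
      have : ‖(m : ℂ)‖ = |(m : ℝ)| := by
        rw [show (m : ℂ) = ((m : ℝ) : ℂ) by push_cast; rfl, Complex.norm_real, Real.norm_eq_abs]
      rw [← this]; exact h1
    have h3 : |m| = 1 := by exact_mod_cast h2
    exact (abs_eq (by norm_num)).1 h3
  · intro hu
    have h1 := MulChar.map_nonunit χ hu
    rw [h] at h1
    exact_mod_cast h1

theorem half {D : ℕ} [NeZero D] (χ : DirichletCharacter ℂ D) (h1 : χ ≠ 1) (c : ZMod D → ℤ)
    (hc : ∀ x, χ x = (c x : ℂ)) :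
    2 * ((univ : Finset (ZMod D)).filter (fun x => c x = -1)).card = Nat.totient D := by
  classical
  have e1 : ∑ x, c x = 0 := by
    have := MulChar.sum_eq_zero_of_ne_one h1
    simp only [hc] at this
    exact_mod_cast this
  have e2 : ∑ x : ZMod D, (if IsUnit x then (1 : ℤ) else 0) = Nat.totient D := by
    rw [← ZMod.card_units_eq_totient D, Finset.sum_boole]
    have h3 : Fintype.card (ZMod D)ˣ = ((univ : Finset (ZMod D)).filter (fun x => IsUnit x)).card := by
      rw [← Finset.card_univ, ← Finset.card_map ⟨((↑) : (ZMod D)ˣ → ZMod D), Units.val_injective⟩]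
      congr 1
      ext x
      simp only [Finset.mem_map, Finset.mem_univ, true_and, Function.Embedding.coeFn_mk,
        Finset.mem_filter]
      rfl
    rw [h3]
  have e3 : ∀ x : ZMod D, (2 : ℤ) * (if c x = -1 then 1 else 0) =
      (if IsUnit x then (1 : ℤ) else 0) - c x := by
    intro x
    obtain ⟨ha, hb⟩ := vals χ x (c x) (hc x)
    by_cases hu : IsUnit x
    · rcases ha hu with h | h <;> simp [h, hu]
    · simp [hb hu, hu]
  have e4 : (2 : ℤ) * (((univ : Finset (ZMod D)).filter (fun x => c x = -1)).card : ℤ) =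
      Nat.totient D := by
    rw [Finset.card_filter]
    push_cast
    rw [Finset.mul_sum, Finset.sum_congr rfl (fun x _ => e3 x), Finset.sum_sub_distrib, e1, e2,
      sub_zero]
  exact_mod_cast e4

theorem ltn (hS : ∃ x0 : ℕ, ∀ x : ℕ, x0 ≤ x → ∀ q : ℕ, 1 ≤ q → (q : ℝ) ≤ Real.log x ^ 2 →
      ∀ a : ℕ, a < q → a.Coprime q →
      |H343E.piAP x q a - H343E.pi1 x / (Nat.totient q : ℝ)| ≤ x / Real.log x ^ 6)
    (hKR : Pool.Agent.H38R2.CG.P_KR) (hP : Pool.Agent.W627.LT.S_P) (D : ℕ)
    (hD : Pool.Agent.H38R2.CG.IsFund D) :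
    ∃ y0 : ℕ, ∀ y : ℕ, y0 ≤ y → (y : ℝ) / (5 * Real.log y) ≤
      (((Pool.Agent.W627.LT.PQ y).filter (fun p => Pool.Agent.H38R2.CG.chi D p = -1)).card : ℝ) := by
  classical
  obtain ⟨x0, hx0⟩ := hS
  obtain ⟨y1, hy1⟩ := hP
  have hD1 : 1 < D := hD.1
  have hne : NeZero D := ⟨by omega⟩
  obtain ⟨χ, hχ1, hχ⟩ := hKR D hD
  -- integer values
  let c : ZMod D → ℤ := fun x => Pool.Agent.H38R2.CG.chi D (x.val + D)
  have hc : ∀ x, χ x = (c x : ℂ) := by
    intro x
    show χ x = ((Pool.Agent.H38R2.CG.chi D (x.val + D) : ℤ) : ℂ)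
    rw [← hχ (x.val + D) (by omega)]
    congr 1
    push_cast
    rw [ZMod.natCast_self, add_zero, ZMod.natCast_zmod_val]
  have hhalf := half χ hχ1 c hc
  set R : Finset (ZMod D) := (univ : Finset (ZMod D)).filter (fun x => c x = -1) with hR
  have hφ : 0 < Nat.totient D := Nat.totient_pos.2 (by omega)
  refine ⟨max (max x0 y1) ⌈Real.exp (max 80 D)⌉₊, fun y hy => ?_⟩
  have hyx : x0 ≤ y := le_trans (le_trans (le_max_left _ _) (le_max_left _ _)) hy
  have hyy : y1 ≤ y := le_trans (le_trans (le_max_right _ _) (le_max_left _ _)) hy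
  have hye : Real.exp (max 80 D) ≤ y :=
    le_trans (Nat.le_ceil _) (by exact_mod_cast le_trans (le_max_right _ _) hy)
  have hy0 : (0 : ℝ) < y := lt_of_lt_of_le (Real.exp_pos _) hye
  set L : ℝ := Real.log y with hL
  have hL1 : max 80 (D : ℝ) ≤ L := (Real.le_log_iff_exp_le hy0).2 hye
  have hL80 : 80 ≤ L := le_trans (le_max_left _ _) hL1
  have hLD : (D : ℝ) ≤ L := le_trans (le_max_right _ _) hL1
  have hL0 : 0 < L := by linarith
  have hDL : (D : ℝ) ≤ L ^ 2 := by nlinarith
  -- each residue class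
  have hcl : ∀ x ∈ R, H343E.pi1 y / (Nat.totient D : ℝ) - y / L ^ 6 ≤ H343E.piAP y D x.val := by
    intro x hx
    have hu : IsUnit x := by
      by_contra hu
      have h1 := (vals χ x (c x) (hc x)).2 hu
      have h2 := (Finset.mem_filter.1 hx).2
      omega
    have hcop : x.val.Coprime D := by
      obtain ⟨u, rfl⟩ := hu
      exact ZMod.val_coe_unit_coprime u
    have h1 := hx0 y hyx D (by omega) hDL x.val (ZMod.val_lt x) hcop
    have h2 := (abs_le.1 h1).1
    linarith
  -- the union
  have hun : ∑ x ∈ R, H343E.piAP y D x.val ≤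
      (((Pool.Agent.W627.LT.PQ y).filter (fun p => Pool.Agent.H38R2.CG.chi D p = -1)).card : ℝ)
        + 1 := by
    have h1 : ∑ x ∈ R, H343E.piAP y D x.val =
        ((R.biUnion (fun x => (Icc 1 y).filter (fun p => p.Prime ∧ p ≡ x.val [MOD D]))).card : ℝ) := by
      rw [Finset.card_biUnion]
      · push_cast
        refine Finset.sum_congr rfl (fun x _ => ?_)
        unfold H343E.piAP
        congr!
      · intro x _ x' _ hxx
        rw [Function.onFun, Finset.disjoint_left]
        intro p hp hp'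
        apply hxx
        have a1 := (Finset.mem_filter.1 hp).2.2
        have a2 := (Finset.mem_filter.1 hp').2.2
        have a3 : x.val ≡ x'.val [MOD D] := a1.symm.trans a2
        have a4 := Nat.ModEq.eq_of_lt_of_lt a3 (ZMod.val_lt x) (ZMod.val_lt x')
        exact ZMod.val_injective D a4
    rw [h1]
    have h2 : R.biUnion (fun x => (Icc 1 y).filter (fun p => p.Prime ∧ p ≡ x.val [MOD D])) ⊆
        insert 2 ((Pool.Agent.W627.LT.PQ y).filter (fun p => Pool.Agent.H38R2.CG.chi D p = -1)) := by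
      intro p hp
      obtain ⟨x, hx, hp⟩ := Finset.mem_biUnion.1 hp
      obtain ⟨hpI, hpp, hpm⟩ := Finset.mem_filter.1 hp
      rw [Finset.mem_insert]
      by_cases h2 : p = 2
      · exact Or.inl h2
      · right
        refine Finset.mem_filter.2 ⟨?_, ?_⟩
        · unfold Pool.Agent.W627.LT.PQ
          refine Finset.mem_filter.2 ⟨Finset.mem_Icc.2 ⟨?_, (Finset.mem_Icc.1 hpI).2⟩, hpp⟩
          have := hpp.two_le
          omega
        · have a1 : ((p : ℕ) : ZMod D) = x := by
            rw [← ZMod.natCast_zmod_val x]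
            exact (ZMod.natCast_eq_natCast_iff _ _ _).2 hpm
          have a2 := hχ p hpp.one_lt.le
          rw [a1, hc x, (Finset.mem_filter.1 hx).2] at a2
          exact_mod_cast a2.symm
    have h3 := (Finset.card_le_card h2).trans (Finset.card_insert_le _ _)
    exact_mod_cast h3
  have hsum : (R.card : ℝ) * (H343E.pi1 y / (Nat.totient D : ℝ) - y / L ^ 6) ≤
      ∑ x ∈ R, H343E.piAP y D x.val := by
    rw [← nsmul_eq_mul]
    exact Finset.card_nsmul_le_sum _ _ _ hcl
  have hRc : (2 : ℝ) * R.card = Nat.totient D := by exact_mod_cast hhalf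
  have hφR : (0 : ℝ) < Nat.totient D := by exact_mod_cast hφ
  have hφD : (Nat.totient D : ℝ) ≤ D := by exact_mod_cast Nat.totient_le D
  have hpi : (y : ℝ) / (2 * L) ≤ H343E.pi1 y := by
    refine le_trans (hy1 y hyy) ?_
    unfold H343E.pi1 Pool.Agent.W627.LT.PQ
    have : ((Finset.Icc 3 y).filter Nat.Prime) ⊆ (Icc 1 y).filter (fun p => p.Prime) := by
      intro p hp
      obtain ⟨a, b⟩ := Finset.mem_filter.1 hp
      refine Finset.mem_filter.2 ⟨Finset.mem_Icc.2 ⟨?_, (Finset.mem_Icc.1 a).2⟩, b⟩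
      have := (Finset.mem_Icc.1 a).1
      omega
    exact_mod_cast Finset.card_le_card this
  have hmain : (R.card : ℝ) * (H343E.pi1 y / (Nat.totient D : ℝ) - y / L ^ 6) =
      H343E.pi1 y / 2 - (Nat.totient D : ℝ) / 2 * (y / L ^ 6) := by
    have : (R.card : ℝ) = (Nat.totient D : ℝ) / 2 := by linarith
    rw [this]
    field_simp
  -- the error terms
  have herr : (Nat.totient D : ℝ) / 2 * (y / L ^ 6) ≤ y / (40 * L) := by
    have h1 : (Nat.totient D : ℝ) / 2 ≤ L ^ 2 / 2 := by linarith
    calc (Nat.totient D : ℝ) / 2 * (y / L ^ 6) ≤ L ^ 2 / 2 * (y / L ^ 6) :=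
          mul_le_mul_of_nonneg_right h1 (by positivity)
      _ = y / (2 * L ^ 4) := by field_simp
      _ ≤ y / (40 * L) := by
          apply div_le_div_of_nonneg_left hy0.le (by positivity)
          have h3 : (20 : ℝ) ≤ L ^ 3 := by
            calc (20 : ℝ) ≤ 80 ^ 3 := by norm_num
              _ ≤ L ^ 3 := pow_le_pow_left₀ (by norm_num) hL80 3
          calc 40 * L = 2 * (20 * L) := by ring
            _ ≤ 2 * (L ^ 3 * L) := by
                apply mul_le_mul_of_nonneg_left _ (by norm_num)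
                exact mul_le_mul_of_nonneg_right h3 hL0.le
            _ = 2 * L ^ 4 := by ring
  have hone : 1 ≤ (y : ℝ) / (40 * L) := by
    rw [le_div_iff₀ (by positivity), one_mul]
    have h1 : Real.exp L = y := Real.exp_log hy0
    have h2 := Real.quadratic_le_exp_of_nonneg hL0.le
    nlinarith
  have hsplit : (y : ℝ) / (5 * L) = y / (2 * L) / 2 - y / (40 * L) - y / (40 * L) := by
    field_simp
    norm_num
  rw [hsplit]
  have := hsum.trans hun
  rw [hmain] at this
  linarith

end Pool.Agent.W479.LT
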